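import Pool.Agent.R200.IsoEnt

/-!
# Isolated transitive multidimensional shifts have zero entropy

For every `d ≥ 1`, every shift which is isolated in the space of transitive `d`-dimensional shifts
(over all finite alphabets of integers, with the Hausdorff distance) has topological entropy `0`.

The definitions (`Config`, `shiftBy`, `delta`, `hausDelta`, `IsShift`, `IsTransitive`,
`IsIsolatedTransitive`, `patterns`, `HasEntropy`) are in `Pool/Agent/R200/IsoDefs.lean`.

Proof: let `x` be a transitive point of `X` and `m` such that a transitive shift with the same
`m`-windows as `X` is equal to `X`. Cut the lattice into cubes of side `N` and replace in `x` the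
interior of each cube, up to finitely many cubes, by a canonical fill-in which depends only on the
boundary layer of the cube. The orbit closure of the new point is transitive and has the same
`m`-windows, so it is `X`; but its entropy is at most `2 d (2m+1) log |A| / N`.
-/

set_option autoImplicit false

namespace Pool.Agent.Results.MP_86c582_an.IsolatedZeroEntropy

open Pool.Agent.R200.Iso

theorem result (d : ℕ) (hd : 1 ≤ d) (X : Set (Config d)) (hX : IsIsolatedTransitive X) :
    HasEntropy X 0 :=
  entropy_zero hd hX

end Pool.Agent.Results.MP_86c582_an.IsolatedZeroEntropy
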